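import Mathlib

/-!
# The algebraic certificate for the orbit of `1/33`

`w = (1 + √33) / 2`.
-/

open Real

namespace Pool.Agent.Q63.Flower

/-- The quintic with roots `2 cos (2 π j / 33)`, `j = 1, 2, 4, 8, 16`. -/
noncomputable def R5 (w y : ℝ) : ℝ :=
  y ^ 5 - w * y ^ 4 - y ^ 3 + (3 * w + 3) * y ^ 2 - (2 * w + 5) * y + 1

/-- The potential. -/
noncomputable def Phi (w y : ℝ) : ℝ :=
  (27748 - 8076 * w) + (-5705 + 1256 * w) * y + (8624 - 2184 * w) * y ^ 2 + (8873 - 1614 * w) * y ^ 3 + (-15482 + 3634 * w) * y ^ 4 + (-8199 + 619 * w) * y ^ 5 + (11562 - 2274 * w) * y ^ 6 + (4645 - 308 * w) * y ^ 7 + (-3836 + 516 * w) * y ^ 8 + (-1298 + 127 * w) * y ^ 9 + (492) * y ^ 10 + (75) * y ^ 11 + (-42) * y ^ 12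

/-- The positive factor. -/
noncomputable def Sf (w y : ℝ) : ℝ :=
  (-2007 + 612 * w) + (-1343 + 416 * w) * y + (5832 - 1872 * w) * y ^ 2 + (91 - 340 * w) * y ^ 3 + (-8414 + 2776 * w) * y ^ 4 + (795 + 1105 * w) * y ^ 5 + (11442 - 2460 * w) * y ^ 6 + (-2479 - 112 * w) * y ^ 7 + (-6906 + 582 * w) * y ^ 8 + (630 - 651 * w) * y ^ 9 + (1446 - 66 * w) * y ^ 10 + (177 + 294 * w) * y ^ 11 + (84 + 84 * w) * y ^ 12 + (42) * y ^ 13

set_option maxHeartbeats 4000000 in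
lemma cert_identity {w : ℝ} (hw : w ^ 2 = w + 8) (y : ℝ) :
    132 * (11 * (2 - y) - (10 - w) * (2 + 3 * y - y ^ 3)) + Phi w (y ^ 2 - 2) - Phi w y =
      (2 - y) * R5 w y ^ 2 * Sf w y := by
  unfold Phi R5 Sf
  linear_combination ((4896) * y + (-19784 - 4896 * w) * y ^ 2 + (-2596 + 13808 * w) * y ^ 3 + (81902 + 8264 * w) * y ^ 4 + (-52153 - 61564 * w) * y ^ 5 + (-114747 + 34640 * w) * y ^ 6 + (55192 + 80200 * w) * y ^ 7 + (197801 - 66672 * w) * y ^ 8 + (-88381 - 92786 * w) * y ^ 9 + (-161289 + 117729 * w) * y ^ 10 + (1410 + 22236 * w) * y ^ 11 + (141032 - 87154 * w) * y ^ 12 + (43602 + 29446 * w) * y ^ 13 + (-109975 + 24898 * w) * y ^ 14 + (-15972 - 22678 * w) * y ^ 15 + (49980 - 652 * w) * y ^ 16 + (-994 + 7068 * w) * y ^ 17 + (-12801 - 939 * w) * y ^ 18 + (1308 - 1158 * w) * y ^ 19 + (1863 + 126 * w) * y ^ 20 + (-168 + 84 * w) * y ^ 21 + (-126) * y ^ 22) * hw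

set_option maxHeartbeats 4000000 in
lemma seg0 {w y : ℝ} (h1 : 337228 / 100000 ≤ w) (h2 : w ≤ 337229 / 100000)
    (ha : (-2) ≤ y) (hb : y ≤ (-3 / 2)) : 0 ≤ Sf w y := by
  have hu : 0 ≤ ((2) * y + (4)) := by linarith
  have hv : 0 ≤ ((-3) - (2) * y) := by linarith
  obtain ⟨u, hu'⟩ : ∃ u, u = ((2) * y + (4)) := ⟨_, rfl⟩
  obtain ⟨v, hv'⟩ : ∃ v, v = ((-3) - (2) * y) := ⟨_, rfl⟩
  have c0 : 0 ≤ ((-59473) + (17636) * w) := by linarith
  have c1 : 0 ≤ ((-1258981 / 2) + (186676) * w) := by linarith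
  have c2 : 0 ≤ ((-6072717 / 2) + (900430) * w) := by linarith
  have c3 : 0 ≤ ((-70155665 / 8) + (5201113 / 2) * w) := by linarith
  have c4 : 0 ≤ ((-33529623 / 2) + (39772679 / 8) * w) := by linarith
  have c5 : 0 ≤ ((-707510949 / 32) + (209816365 / 32) * w) := by linarith
  have c6 : 0 ≤ ((-323703691 / 16) + (96000141 / 16) * w) := by linarith
  have c7 : 0 ≤ ((-1586291751 / 128) + (58809653 / 16) * w) := by linarith
  have c8 : 0 ≤ ((-563060973 / 128) + (83513713 / 64) * w) := by linarith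
  have c9 : 0 ≤ ((-57779859 / 256) + (34384525 / 512) * w) := by linarith
  have c10 : 0 ≤ ((39394711 / 64) + (-93415535 / 512) * w) := by linarith
  have c11 : 0 ≤ ((648034593 / 2048) + (-96063987 / 1024) * w) := by linarith
  have c12 : 0 ≤ ((72815005 / 1024) + (-21589471 / 1024) * w) := by linarith
  have c13 : 0 ≤ ((26471415 / 4096) + (-490557 / 256) * w) := by linarith
  have key : Sf w y = ((-59473) + (17636) * w) * (u ^ 0 * v ^ 13) + ((-1258981 / 2) + (186676) * w) * (u ^ 1 * v ^ 12) + ((-6072717 / 2) + (900430) * w) * (u ^ 2 * v ^ 11) + ((-70155665 / 8) + (5201113 / 2) * w) * (u ^ 3 * v ^ 10) + ((-33529623 / 2) + (39772679 / 8) * w) * (u ^ 4 * v ^ 9) + ((-707510949 / 32) + (209816365 / 32) * w) * (u ^ 5 * v ^ 8) + ((-323703691 / 16) + (96000141 / 16) * w) * (u ^ 6 * v ^ 7) + ((-1586291751 / 128) + (58809653 / 16) * w) * (u ^ 7 * v ^ 6) + ((-563060973 / 128) + (83513713 / 64) * w) * (u ^ 8 * v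 ^ 5) + ((-57779859 / 256) + (34384525 / 512) * w) * (u ^ 9 * v ^ 4) + ((39394711 / 64) + (-93415535 / 512) * w) * (u ^ 10 * v ^ 3) + ((648034593 / 2048) + (-96063987 / 1024) * w) * (u ^ 11 * v ^ 2) + ((72815005 / 1024) + (-21589471 / 1024) * w) * (u ^ 12 * v ^ 1) + ((26471415 / 4096) + (-490557 / 256) * w) * (u ^ 13 * v ^ 0) := by
    rw [hu', hv']; unfold Sf; ring
  rw [← hu'] at hu; rw [← hv'] at hv
  rw [key]
  exact add_nonneg (add_nonneg (add_nonneg (add_nonneg (add_nonneg (add_nonneg (add_nonneg (add_nonneg (add_nonneg (add_nonneg (add_nonneg (add_nonneg (add_nonneg (mul_nonneg c0 (mul_nonneg (pow_nonneg hu _) (pow_nonneg hv _))) (mul_nonneg c1 (mul_nonneg (pow_nonneg hu _) (pow_nonneg hv _)))) (mul_nonneg c2 (mul_nonneg (pow_nonneg hu _) (pow_nonneg hv _)))) (mul_nonneg c3 (mul_nonneg (pow_nonneg hu _) (pow_nonneg hv _)))) (mul_nonneg c4 (mul_nonneg (pow_nonneg hu _) (pow_nonneg hv _)))) (mul_nonneg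 c5 (mul_nonneg (pow_nonneg hu _) (pow_nonneg hv _)))) (mul_nonneg c6 (mul_nonneg (pow_nonneg hu _) (pow_nonneg hv _)))) (mul_nonneg c7 (mul_nonneg (pow_nonneg hu _) (pow_nonneg hv _)))) (mul_nonneg c8 (mul_nonneg (pow_nonneg hu _) (pow_nonneg hv _)))) (mul_nonneg c9 (mul_nonneg (pow_nonneg hu _) (pow_nonneg hv _)))) (mul_nonneg c10 (mul_nonneg (pow_nonneg hu _) (pow_nonneg hv _)))) (mul_nonneg c11 (mul_nonneg (pow_nonneg hu _) (pow_nonneg hv _)))) (mul_nonneg c12 (mul_nonneg (pow_nonneg hu _) (pow_nonneg hv _)))) (mul_nonneg c13 (mul_nonneg (pow_nonneg hu _) (pow_nonneg hv _)))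

set_option maxHeartbeats 4000000 in
lemma seg1 {w y : ℝ} (h1 : 337228 / 100000 ≤ w) (h2 : w ≤ 337229 / 100000)
    (ha : (-3 / 2) ≤ y) (hb : y ≤ (-1)) : 0 ≤ Sf w y := by
  have hu : 0 ≤ ((2) * y + (3)) := by linarith
  have hv : 0 ≤ ((-2) - (2) * y) := by linarith
  obtain ⟨u, hu'⟩ : ∃ u, u = ((2) * y + (3)) := ⟨_, rfl⟩
  obtain ⟨v, hv'⟩ : ∃ v, v = ((-2) - (2) * y) := ⟨_, rfl⟩
  have c0 : 0 ≤ ((26471415 / 4096) + (-490557 / 256) * w) := by linarith
  have c1 : 0 ≤ ((198498385 / 2048) + (-29428457 / 1024) * w) := by linarith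
  have c2 : 0 ≤ ((1282455093 / 2048) + (-190131819 / 1024) * w) := by linarith
  have c3 : 0 ≤ ((2416553207 / 1024) + (-179133491 / 256) * w) := by linarith
  have c4 : 0 ≤ ((3000108187 / 512) + (-889553025 / 512) * w) := by linarith
  have c5 : 0 ≤ ((2611312719 / 256) + (-774258595 / 256) * w) := by linarith
  have c6 : 0 ≤ ((1648064979 / 128) + (-30540223 / 8) * w) := by linarith
  have c7 : 0 ≤ ((766561489 / 64) + (-14204763 / 4) * w) := by linarith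
  have c8 : 0 ≤ ((65887239 / 8) + (-78136585 / 32) * w) := by linarith
  have c9 : 0 ≤ ((33152223 / 8) + (-19656943 / 16) * w) := by linarith
  have c10 : 0 ≤ ((11887145 / 8) + (-880969 / 2) * w) := by linarith
  have c11 : 0 ≤ ((1440297 / 4) + (-213461 / 2) * w) := by linarith
  have c12 : 0 ≤ ((105829 / 2) + (-15682) * w) := by linarith
  have c13 : 0 ≤ ((3564) + (-1056) * w) := by linarith
  have key : Sf w y = ((26471415 / 4096) + (-490557 / 256) * w) * (u ^ 0 * v ^ 13) + ((198498385 / 2048) + (-29428457 / 1024) * w) * (u ^ 1 * v ^ 12) + ((1282455093 / 2048) + (-190131819 / 1024) * w) * (u ^ 2 * v ^ 11) + ((2416553207 / 1024) + (-179133491 / 256) * w) * (u ^ 3 * v ^ 10) + ((3000108187 / 512) + (-889553025 / 512) * w) * (u ^ 4 * v ^ 9) + ((2611312719 / 256) + (-774258595 / 256) * w) * (u ^ 5 * v ^ 8) + ((1648064979 / 128) + (-30540223 / 8) * w) * (u ^ 6 * v ^ 7) + ((766561489 / 64) + (-14204763 / 4)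 * w) * (u ^ 7 * v ^ 6) + ((65887239 / 8) + (-78136585 / 32) * w) * (u ^ 8 * v ^ 5) + ((33152223 / 8) + (-19656943 / 16) * w) * (u ^ 9 * v ^ 4) + ((11887145 / 8) + (-880969 / 2) * w) * (u ^ 10 * v ^ 3) + ((1440297 / 4) + (-213461 / 2) * w) * (u ^ 11 * v ^ 2) + ((105829 / 2) + (-15682) * w) * (u ^ 12 * v ^ 1) + ((3564) + (-1056) * w) * (u ^ 13 * v ^ 0) := by
    rw [hu', hv']; unfold Sf; ring
  rw [← hu'] at hu; rw [← hv'] at hv
  rw [key]
  exact add_nonneg (add_nonneg (add_nonneg (add_nonneg (add_nonneg (add_nonneg (add_nonneg (add_nonneg (add_nonneg (add_nonneg (add_nonneg (add_nonneg (add_nonneg (mul_nonneg c0 (mul_nonneg (pow_nonneg hu _) (pow_nonneg hv _))) (mul_nonneg c1 (mul_nonneg (pow_nonneg hu _) (pow_nonneg hv _)))) (mul_nonneg c2 (mul_nonneg (pow_nonneg hu _) (pow_nonneg hv _)))) (mul_nonneg c3 (mul_nonneg (pow_nonneg hu _) (pow_nonneg hv _)))) (mul_nonneg c4 (mul_nonneg (pow_nonneg hu _) (pow_nonneg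 hv _)))) (mul_nonneg c5 (mul_nonneg (pow_nonneg hu _) (pow_nonneg hv _)))) (mul_nonneg c6 (mul_nonneg (pow_nonneg hu _) (pow_nonneg hv _)))) (mul_nonneg c7 (mul_nonneg (pow_nonneg hu _) (pow_nonneg hv _)))) (mul_nonneg c8 (mul_nonneg (pow_nonneg hu _) (pow_nonneg hv _)))) (mul_nonneg c9 (mul_nonneg (pow_nonneg hu _) (pow_nonneg hv _)))) (mul_nonneg c10 (mul_nonneg (pow_nonneg hu _) (pow_nonneg hv _)))) (mul_nonneg c11 (mul_nonneg (pow_nonneg hu _) (pow_nonneg hv _)))) (mul_nonneg c12 (mul_nonneg (pow_nonneg hu _) (pow_nonneg hv _)))) (mul_nonneg c13 (mul_nonneg (pow_nonneg hu _) (pow_nonneg hv _)))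

set_option maxHeartbeats 4000000 in
lemma seg2 {w y : ℝ} (h1 : 337228 / 100000 ≤ w) (h2 : w ≤ 337229 / 100000)
    (ha : (-1) ≤ y) (hb : y ≤ (0)) : 0 ≤ Sf w y := by
  have hu : 0 ≤ ((1) * y + (1)) := by linarith
  have hv : 0 ≤ ((0) - (1) * y) := by linarith
  obtain ⟨u, hu'⟩ : ∃ u, u = ((1) * y + (1)) := ⟨_, rfl⟩
  obtain ⟨v, hv'⟩ : ∃ v, v = ((0) - (1) * y) := ⟨_, rfl⟩
  have c0 : 0 ≤ ((3564) + (-1056) * w) := by linarith
  have c1 : 0 ≤ ((33167) + (-9820) * w) := by linarith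
  have c2 : 0 ≤ ((132381) + (-39130) * w) := by linarith
  have c3 : 0 ≤ ((301438) + (-88766) * w) := by linarith
  have c4 : 0 ≤ ((421911) + (-123133) * w) := by linarith
  have c5 : 0 ≤ ((295665) + (-83522) * w) := by linarith
  have c6 : 0 ≤ ((-174269) + (57480) * w) := by linarith
  have c7 : 0 ≤ ((-764538) + (232396) * w) := by linarith
  have c8 : 0 ≤ ((-1036560) + (312023) * w) := by linarith
  have c9 : 0 ≤ ((-828109) + (249276) * w) := by linarith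
  have c10 : 0 ≤ ((-421303) + (127324) * w) := by linarith
  have c11 : 0 ≤ ((-134598) + (40872) * w) := by linarith
  have c12 : 0 ≤ ((-24748) + (7540) * w) := by linarith
  have c13 : 0 ≤ ((-2007) + (612) * w) := by linarith
  have key : Sf w y = ((3564) + (-1056) * w) * (u ^ 0 * v ^ 13) + ((33167) + (-9820) * w) * (u ^ 1 * v ^ 12) + ((132381) + (-39130) * w) * (u ^ 2 * v ^ 11) + ((301438) + (-88766) * w) * (u ^ 3 * v ^ 10) + ((421911) + (-123133) * w) * (u ^ 4 * v ^ 9) + ((295665) + (-83522) * w) * (u ^ 5 * v ^ 8) + ((-174269) + (57480) * w) * (u ^ 6 * v ^ 7) + ((-764538) + (232396) * w) * (u ^ 7 * v ^ 6) + ((-1036560) + (312023) * w) * (u ^ 8 * v ^ 5) + ((-828109) + (249276) * w) * (u ^ 9 * v ^ 4) + ((-421303) + (127324) * w) * (u ^ 10 * v ^ 3) + ((-134598) + (40872) * w) * (u ^ 11 * v ^ 2) + ((-24748) + (7540) * w) * (u ^ 12 * v ^ 1) + ((-2007) + (612) * w) * (u ^ 13 * v ^ 0) := by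
    rw [hu', hv']; unfold Sf; ring
  rw [← hu'] at hu; rw [← hv'] at hv
  rw [key]
  exact add_nonneg (add_nonneg (add_nonneg (add_nonneg (add_nonneg (add_nonneg (add_nonneg (add_nonneg (add_nonneg (add_nonneg (add_nonneg (add_nonneg (add_nonneg (mul_nonneg c0 (mul_nonneg (pow_nonneg hu _) (pow_nonneg hv _))) (mul_nonneg c1 (mul_nonneg (pow_nonneg hu _) (pow_nonneg hv _)))) (mul_nonneg c2 (mul_nonneg (pow_nonneg hu _) (pow_nonneg hv _)))) (mul_nonneg c3 (mul_nonneg (pow_nonneg hu _) (pow_nonneg hv _)))) (mul_nonneg c4 (mul_nonneg (pow_nonneg hu _) (pow_nonneg hv _)))) (mul_nonneg c5 (mul_nonneg (pow_nonneg hu _) (pow_nonneg hv _)))) (mul_nonneg c6 (mul_nonneg (pow_nonneg hu _) (pow_nonneg hv _)))) (mul_nonneg c7 (mul_nonneg (pow_nonneg hu _) (pow_nonneg hv _)))) (mul_nonneg c8 (mul_nonneg (pow_nonneg hu _) (pow_nonneg hv _)))) (mul_nonneg c9 (mul_nonneg (pow_nonneg hu _) (pow_nonneg hv _)))) (mul_nonneg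 c10 (mul_nonneg (pow_nonneg hu _) (pow_nonneg hv _)))) (mul_nonneg c11 (mul_nonneg (pow_nonneg hu _) (pow_nonneg hv _)))) (mul_nonneg c12 (mul_nonneg (pow_nonneg hu _) (pow_nonneg hv _)))) (mul_nonneg c13 (mul_nonneg (pow_nonneg hu _) (pow_nonneg hv _)))

set_option maxHeartbeats 4000000 in
lemma seg3 {w y : ℝ} (h1 : 337228 / 100000 ≤ w) (h2 : w ≤ 337229 / 100000)
    (ha : (0) ≤ y) (hb : y ≤ (1 / 2)) : 0 ≤ Sf w y := by
  have hu : 0 ≤ ((2) * y + (0)) := by linarith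
  have hv : 0 ≤ ((1) - (2) * y) := by linarith
  obtain ⟨u, hu'⟩ : ∃ u, u = ((2) * y + (0)) := ⟨_, rfl⟩
  obtain ⟨v, hv'⟩ : ∃ v, v = ((1) - (2) * y) := ⟨_, rfl⟩
  have c0 : 0 ≤ ((-2007) + (612) * w) := by linarith
  have c1 : 0 ≤ ((-53525 / 2) + (8164) * w) := by linarith
  have c2 : 0 ≤ ((-163146) + (49764) * w) := by linarith
  have c3 : 0 ≤ ((-4818173 / 8) + (367139 / 2) * w) := by linarith
  have c4 : 0 ≤ ((-12023657 / 8) + (914697 / 2) * w) := by linarith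
  have c5 : 0 ≤ ((-85728885 / 32) + (26018161 / 32) * w) := by linarith
  have c6 : 0 ≤ ((-112380447 / 32) + (16989949 / 16) * w) := by linarith
  have c7 : 0 ≤ ((-439134595 / 128) + (16520223 / 16) * w) := by linarith
  have c8 : 0 ≤ ((-319952931 / 128) + (95800139 / 128) * w) := by linarith
  have c9 : 0 ≤ ((-343694529 / 256) + (204853681 / 512) * w) := by linarith
  have c10 : 0 ≤ ((-264690013 / 512) + (78660875 / 512) * w) := by linarith
  have c11 : 0 ≤ ((-276875595 / 2048) + (41184377 / 1024) * w) := by linarith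
  have c12 : 0 ≤ ((-1377385 / 64) + (6603605 / 1024) * w) := by linarith
  have c13 : 0 ≤ ((-6451053 / 4096) + (61353 / 128) * w) := by linarith
  have key : Sf w y = ((-2007) + (612) * w) * (u ^ 0 * v ^ 13) + ((-53525 / 2) + (8164) * w) * (u ^ 1 * v ^ 12) + ((-163146) + (49764) * w) * (u ^ 2 * v ^ 11) + ((-4818173 / 8) + (367139 / 2) * w) * (u ^ 3 * v ^ 10) + ((-12023657 / 8) + (914697 / 2) * w) * (u ^ 4 * v ^ 9) + ((-85728885 / 32) + (26018161 / 32) * w) * (u ^ 5 * v ^ 8) + ((-112380447 / 32) + (16989949 / 16) * w) * (u ^ 6 * v ^ 7) + ((-439134595 / 128) + (16520223 / 16) * w) * (u ^ 7 * v ^ 6) + ((-319952931 / 128) + (95800139 / 128) * w) * (u ^ 8 * v ^ 5) + ((-343694529 / 256) + (204853681 / 512) * w) * (u ^ 9 * v ^ 4) + ((-264690013 / 512) + (78660875 / 512) * w) * (u ^ 10 * v ^ 3) + ((-276875595 / 2048) + (41184377 / 1024) * w) * (u ^ 11 * v ^ 2) + ((-1377385 / 64) + (6603605 / 1024) * w) * (u ^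 12 * v ^ 1) + ((-6451053 / 4096) + (61353 / 128) * w) * (u ^ 13 * v ^ 0) := by
    rw [hu', hv']; unfold Sf; ring
  rw [← hu'] at hu; rw [← hv'] at hv
  rw [key]
  exact add_nonneg (add_nonneg (add_nonneg (add_nonneg (add_nonneg (add_nonneg (add_nonneg (add_nonneg (add_nonneg (add_nonneg (add_nonneg (add_nonneg (add_nonneg (mul_nonneg c0 (mul_nonneg (pow_nonneg hu _) (pow_nonneg hv _))) (mul_nonneg c1 (mul_nonneg (pow_nonneg hu _) (pow_nonneg hv _)))) (mul_nonneg c2 (mul_nonneg (pow_nonneg hu _) (pow_nonneg hv _)))) (mul_nonneg c3 (mul_nonneg (pow_nonneg hu _) (pow_nonneg hv _)))) (mul_nonneg c4 (mul_nonneg (pow_nonneg hu _) (pow_nonneg hv _)))) (mul_nonneg c5 (mul_nonneg (pow_nonneg hu _) (pow_nonneg hv _)))) (mul_nonneg c6 (mul_nonneg (pow_nonneg hu _) (pow_nonneg hv _)))) (mul_nonneg c7 (mul_nonneg (pow_nonneg hu _) (pow_nonneg hv _)))) (mul_nonneg c8 (mul_nonneg (pow_nonneg hu _) (pow_nonneg hv _))))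 (mul_nonneg c9 (mul_nonneg (pow_nonneg hu _) (pow_nonneg hv _)))) (mul_nonneg c10 (mul_nonneg (pow_nonneg hu _) (pow_nonneg hv _)))) (mul_nonneg c11 (mul_nonneg (pow_nonneg hu _) (pow_nonneg hv _)))) (mul_nonneg c12 (mul_nonneg (pow_nonneg hu _) (pow_nonneg hv _)))) (mul_nonneg c13 (mul_nonneg (pow_nonneg hu _) (pow_nonneg hv _)))

set_option maxHeartbeats 4000000 in
lemma seg4 {w y : ℝ} (h1 : 337228 / 100000 ≤ w) (h2 : w ≤ 337229 / 100000)
    (ha : (1 / 2) ≤ y) (hb : y ≤ (1)) : 0 ≤ Sf w y := by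
  have hu : 0 ≤ ((2) * y + (-1)) := by linarith
  have hv : 0 ≤ ((2) - (2) * y) := by linarith
  obtain ⟨u, hu'⟩ : ∃ u, u = ((2) * y + (-1)) := ⟨_, rfl⟩
  obtain ⟨v, hv'⟩ : ∃ v, v = ((2) - (2) * y) := ⟨_, rfl⟩
  have c0 : 0 ≤ ((-6451053 / 4096) + (61353 / 128) * w) := by linarith
  have c1 : 0 ≤ ((-39787369 / 2048) + (6157819 / 1024) * w) := by linarith
  have c2 : 0 ≤ ((-225408183 / 2048) + (35834945 / 1024) * w) := by linarith
  have c3 : 0 ≤ ((-388179595 / 1024) + (16048517 / 128) * w) := by linarith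
  have c4 : 0 ≤ ((-453171513 / 512) + (158258531 / 512) * w) := by linarith
  have c5 : 0 ≤ ((-378421287 / 256) + (141834515 / 256) * w) := by linarith
  have c6 : 0 ≤ ((-232360033 / 128) + (5936383 / 8) * w) := by linarith
  have c7 : 0 ≤ ((-106191973 / 64) + (749668) * w) := by linarith
  have c8 : 0 ≤ ((-9040233 / 8) + (18191699 / 32) * w) := by linarith
  have c9 : 0 ≤ ((-4547687 / 8) + (5079775 / 16) * w) := by linarith
  have c10 : 0 ≤ ((-1654883 / 8) + (251835 / 2) * w) := by linarith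
  have c11 : 0 ≤ ((-208521 / 4) + (66599 / 2) * w) := by linarith
  have c12 : 0 ≤ ((-16455 / 2) + (5226) * w) := by linarith
  have c13 : 0 ≤ ((-610) + (368) * w) := by linarith
  have key : Sf w y = ((-6451053 / 4096) + (61353 / 128) * w) * (u ^ 0 * v ^ 13) + ((-39787369 / 2048) + (6157819 / 1024) * w) * (u ^ 1 * v ^ 12) + ((-225408183 / 2048) + (35834945 / 1024) * w) * (u ^ 2 * v ^ 11) + ((-388179595 / 1024) + (16048517 / 128) * w) * (u ^ 3 * v ^ 10) + ((-453171513 / 512) + (158258531 / 512) * w) * (u ^ 4 * v ^ 9) + ((-378421287 / 256) + (141834515 / 256) * w) * (u ^ 5 * v ^ 8) + ((-232360033 / 128) + (5936383 / 8) * w) * (u ^ 6 * v ^ 7) + ((-106191973 / 64) + (749668) * w) * (u ^ 7 * v ^ 6) + ((-9040233 / 8) + (18191699 / 32) * w) * (u ^ 8 * v ^ 5) + ((-4547687 / 8) + (5079775 / 16) * w) * (u ^ 9 * v ^ 4) + ((-1654883 / 8) + (251835 / 2) * w) * (u ^ 10 * v ^ 3) + ((-208521 / 4) + (66599 / 2) * w)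 * (u ^ 11 * v ^ 2) + ((-16455 / 2) + (5226) * w) * (u ^ 12 * v ^ 1) + ((-610) + (368) * w) * (u ^ 13 * v ^ 0) := by
    rw [hu', hv']; unfold Sf; ring
  rw [← hu'] at hu; rw [← hv'] at hv
  rw [key]
  exact add_nonneg (add_nonneg (add_nonneg (add_nonneg (add_nonneg (add_nonneg (add_nonneg (add_nonneg (add_nonneg (add_nonneg (add_nonneg (add_nonneg (add_nonneg (mul_nonneg c0 (mul_nonneg (pow_nonneg hu _) (pow_nonneg hv _))) (mul_nonneg c1 (mul_nonneg (pow_nonneg hu _) (pow_nonneg hv _)))) (mul_nonneg c2 (mul_nonneg (pow_nonneg hu _) (pow_nonneg hv _)))) (mul_nonneg c3 (mul_nonneg (pow_nonneg hu _) (pow_nonneg hv _)))) (mul_nonneg c4 (mul_nonneg (pow_nonneg hu _) (pow_nonneg hv _)))) (mul_nonneg c5 (mul_nonneg (pow_nonneg hu _) (pow_nonneg hv _)))) (mul_nonneg c6 (mul_nonneg (pow_nonneg hu _) (pow_nonneg hv _)))) (mul_nonneg c7 (mul_nonneg (pow_nonneg hu _) (pow_nonneg hv _)))) (mul_nonneg c8 (mul_nonneg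 (pow_nonneg hu _) (pow_nonneg hv _)))) (mul_nonneg c9 (mul_nonneg (pow_nonneg hu _) (pow_nonneg hv _)))) (mul_nonneg c10 (mul_nonneg (pow_nonneg hu _) (pow_nonneg hv _)))) (mul_nonneg c11 (mul_nonneg (pow_nonneg hu _) (pow_nonneg hv _)))) (mul_nonneg c12 (mul_nonneg (pow_nonneg hu _) (pow_nonneg hv _)))) (mul_nonneg c13 (mul_nonneg (pow_nonneg hu _) (pow_nonneg hv _)))

set_option maxHeartbeats 4000000 in
lemma seg5 {w y : ℝ} (h1 : 337228 / 100000 ≤ w) (h2 : w ≤ 337229 / 100000)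
    (ha : (1) ≤ y) (hb : y ≤ (3 / 2)) : 0 ≤ Sf w y := by
  have hu : 0 ≤ ((2) * y + (-2)) := by linarith
  have hv : 0 ≤ ((3) - (2) * y) := by linarith
  obtain ⟨u, hu'⟩ : ∃ u, u = ((2) * y + (-2)) := ⟨_, rfl⟩
  obtain ⟨v, hv'⟩ : ∃ v, v = ((3) - (2) * y) := ⟨_, rfl⟩
  have c0 : 0 ≤ ((-610) + (368) * w) := by linarith
  have c1 : 0 ≤ ((-15265 / 2) + (4342) * w) := by linarith
  have c2 : 0 ≤ ((-179961 / 4) + (45383 / 2) * w) := by linarith
  have c3 : 0 ≤ ((-1309001 / 8) + (137983 / 2) * w) := by linarith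
  have c4 : 0 ≤ ((-3183267 / 8) + (2194975 / 16) * w) := by linarith
  have c5 : 0 ≤ ((-5118153 / 8) + (6471625 / 32) * w) := by linarith
  have c6 : 0 ≤ ((-36722533 / 64) + (559683 / 2) * w) := by linarith
  have c7 : 0 ≤ ((7267413 / 128) + (3485149 / 8) * w) := by linarith
  have c8 : 0 ≤ ((254068833 / 256) + (165134995 / 256) * w) := by linarith
  have c9 : 0 ≤ ((784360797 / 512) + (372589849 / 512) * w) := by linarith
  have c10 : 0 ≤ ((1333619365 / 1024) + (72358459 / 128) * w) := by linarith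
  have c11 : 0 ≤ ((1376994579 / 2048) + (290597343 / 1024) * w) := by linarith
  have c12 : 0 ≤ ((406243691 / 2048) + (85063127 / 1024) * w) := by linarith
  have c13 : 0 ≤ ((105745569 / 4096) + (5529093 / 512) * w) := by linarith
  have key : Sf w y = ((-610) + (368) * w) * (u ^ 0 * v ^ 13) + ((-15265 / 2) + (4342) * w) * (u ^ 1 * v ^ 12) + ((-179961 / 4) + (45383 / 2) * w) * (u ^ 2 * v ^ 11) + ((-1309001 / 8) + (137983 / 2) * w) * (u ^ 3 * v ^ 10) + ((-3183267 / 8) + (2194975 / 16) * w) * (u ^ 4 * v ^ 9) + ((-5118153 / 8) + (6471625 / 32) * w) * (u ^ 5 * v ^ 8) + ((-36722533 / 64) + (559683 / 2) * w) * (u ^ 6 * v ^ 7) + ((7267413 / 128) + (3485149 / 8) * w) * (u ^ 7 * v ^ 6) + ((254068833 / 256) + (165134995 / 256) * w) * (u ^ 8 * v ^ 5) + ((784360797 / 512) + (372589849 / 512) * w) * (u ^ 9 * v ^ 4) + ((1333619365 / 1024) + (72358459 / 128) * w) * (u ^ 10 * v ^ 3) + ((1376994579 / 2048) + (290597343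 / 1024) * w) * (u ^ 11 * v ^ 2) + ((406243691 / 2048) + (85063127 / 1024) * w) * (u ^ 12 * v ^ 1) + ((105745569 / 4096) + (5529093 / 512) * w) * (u ^ 13 * v ^ 0) := by
    rw [hu', hv']; unfold Sf; ring
  rw [← hu'] at hu; rw [← hv'] at hv
  rw [key]
  exact add_nonneg (add_nonneg (add_nonneg (add_nonneg (add_nonneg (add_nonneg (add_nonneg (add_nonneg (add_nonneg (add_nonneg (add_nonneg (add_nonneg (add_nonneg (mul_nonneg c0 (mul_nonneg (pow_nonneg hu _) (pow_nonneg hv _))) (mul_nonneg c1 (mul_nonneg (pow_nonneg hu _) (pow_nonneg hv _)))) (mul_nonneg c2 (mul_nonneg (pow_nonneg hu _) (pow_nonneg hv _)))) (mul_nonneg c3 (mul_nonneg (pow_nonneg hu _) (pow_nonneg hv _)))) (mul_nonneg c4 (mul_nonneg (pow_nonneg hu _) (pow_nonneg hv _)))) (mul_nonneg c5 (mul_nonneg (pow_nonneg hu _) (pow_nonneg hv _)))) (mul_nonneg c6 (mul_nonneg (pow_nonneg hu _) (pow_nonneg hv _)))) (mul_nonneg c7 (mul_nonneg (pow_nonneg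 hu _) (pow_nonneg hv _)))) (mul_nonneg c8 (mul_nonneg (pow_nonneg hu _) (pow_nonneg hv _)))) (mul_nonneg c9 (mul_nonneg (pow_nonneg hu _) (pow_nonneg hv _)))) (mul_nonneg c10 (mul_nonneg (pow_nonneg hu _) (pow_nonneg hv _)))) (mul_nonneg c11 (mul_nonneg (pow_nonneg hu _) (pow_nonneg hv _)))) (mul_nonneg c12 (mul_nonneg (pow_nonneg hu _) (pow_nonneg hv _)))) (mul_nonneg c13 (mul_nonneg (pow_nonneg hu _) (pow_nonneg hv _)))

set_option maxHeartbeats 4000000 in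
lemma seg6 {w y : ℝ} (h1 : 337228 / 100000 ≤ w) (h2 : w ≤ 337229 / 100000)
    (ha : (3 / 2) ≤ y) (hb : y ≤ (2)) : 0 ≤ Sf w y := by
  have hu : 0 ≤ ((2) * y + (-3)) := by linarith
  have hv : 0 ≤ ((4) - (2) * y) := by linarith
  obtain ⟨u, hu'⟩ : ∃ u, u = ((2) * y + (-3)) := ⟨_, rfl⟩
  obtain ⟨v, hv'⟩ : ∃ v, v = ((4) - (2) * y) := ⟨_, rfl⟩
  have c0 : 0 ≤ ((105745569 / 4096) + (5529093 / 512) * w) := by linarith
  have c1 : 0 ≤ ((484224353 / 1024) + (202449709 / 1024) * w) := by linarith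
  have c2 : 0 ≤ ((8123454759 / 2048) + (1699236327 / 1024) * w) := by linarith
  have c3 : 0 ≤ ((5168904815 / 256) + (4329368957 / 512) * w) := by linarith
  have c4 : 0 ≤ ((17825904311 / 256) + (14946893019 / 512) * w) := by linarith
  have c5 : 0 ≤ ((22002126483 / 128) + (2308292899 / 32) * w) := by linarith
  have c6 : 0 ≤ ((40014378975 / 128) + (2100604225 / 16) * w) := by linarith
  have c7 : 0 ≤ ((1696990921 / 4) + (2852347029 / 16) * w) := by linarith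
  have c8 : 0 ≤ ((13752587613 / 32) + (5781172115 / 32) * w) := by linarith
  have c9 : 0 ≤ ((1284224259 / 4) + (1079968897 / 8) * w) := by linarith
  have c10 : 0 ≤ ((1375716593 / 8) + (144635639 / 2) * w) := by linarith
  have c11 : 0 ≤ ((125106525 / 2) + (26308346) * w) := by linarith
  have c12 : 0 ≤ ((27707257 / 2) + (5826740) * w) := by linarith
  have c13 : 0 ≤ ((1411107) + (593508) * w) := by linarith
  have key : Sf w y = ((105745569 / 4096) + (5529093 / 512) * w) * (u ^ 0 * v ^ 13) + ((484224353 / 1024) + (202449709 / 1024) * w) * (u ^ 1 * v ^ 12) + ((8123454759 / 2048) + (1699236327 / 1024) * w) * (u ^ 2 * v ^ 11) + ((5168904815 / 256) + (4329368957 / 512) * w) * (u ^ 3 * v ^ 10) + ((17825904311 / 256) + (14946893019 / 512) * w) * (u ^ 4 * v ^ 9) + ((22002126483 / 128) + (2308292899 / 32) * w) * (u ^ 5 * v ^ 8) + ((40014378975 / 128) + (2100604225 / 16) * w) * (u ^ 6 * v ^ 7) + ((1696990921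 / 4) + (2852347029 / 16) * w) * (u ^ 7 * v ^ 6) + ((13752587613 / 32) + (5781172115 / 32) * w) * (u ^ 8 * v ^ 5) + ((1284224259 / 4) + (1079968897 / 8) * w) * (u ^ 9 * v ^ 4) + ((1375716593 / 8) + (144635639 / 2) * w) * (u ^ 10 * v ^ 3) + ((125106525 / 2) + (26308346) * w) * (u ^ 11 * v ^ 2) + ((27707257 / 2) + (5826740) * w) * (u ^ 12 * v ^ 1) + ((1411107) + (593508) * w) * (u ^ 13 * v ^ 0) := by
    rw [hu', hv']; unfold Sf; ring
  rw [← hu'] at hu; rw [← hv'] at hv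
  rw [key]
  exact add_nonneg (add_nonneg (add_nonneg (add_nonneg (add_nonneg (add_nonneg (add_nonneg (add_nonneg (add_nonneg (add_nonneg (add_nonneg (add_nonneg (add_nonneg (mul_nonneg c0 (mul_nonneg (pow_nonneg hu _) (pow_nonneg hv _))) (mul_nonneg c1 (mul_nonneg (pow_nonneg hu _) (pow_nonneg hv _)))) (mul_nonneg c2 (mul_nonneg (pow_nonneg hu _) (pow_nonneg hv _)))) (mul_nonneg c3 (mul_nonneg (pow_nonneg hu _) (pow_nonneg hv _)))) (mul_nonneg c4 (mul_nonneg (pow_nonneg hu _) (pow_nonneg hv _)))) (mul_nonneg c5 (mul_nonneg (pow_nonneg hu _) (pow_nonneg hv _)))) (mul_nonneg c6 (mul_nonneg (pow_nonneg hu _) (pow_nonneg hv _)))) (mul_nonneg c7 (mul_nonneg (pow_nonneg hu _) (pow_nonneg hv _)))) (mul_nonneg c8 (mul_nonneg (pow_nonneg hu _) (pow_nonneg hv _)))) (mul_nonneg c9 (mul_nonneg (pow_nonneg hu _) (pow_nonneg hv _)))) (mul_nonneg c10 (mul_nonneg (pow_nonneg hu _) (pow_nonneg hv _)))) (mul_nonneg c11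 (mul_nonneg (pow_nonneg hu _) (pow_nonneg hv _)))) (mul_nonneg c12 (mul_nonneg (pow_nonneg hu _) (pow_nonneg hv _)))) (mul_nonneg c13 (mul_nonneg (pow_nonneg hu _) (pow_nonneg hv _)))

lemma Sf_nonneg {w y : ℝ} (h1 : 337228 / 100000 ≤ w) (h2 : w ≤ 337229 / 100000)
    (ha : -2 ≤ y) (hb : y ≤ 2) : 0 ≤ Sf w y := by
  rcases le_total y (-3 / 2) with h | h
  · exact seg0 h1 h2 (by linarith) h
  rcases le_total y (-1) with h | h
  · exact seg1 h1 h2 (by linarith) h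
  rcases le_total y (0) with h | h
  · exact seg2 h1 h2 (by linarith) h
  rcases le_total y (1 / 2) with h | h
  · exact seg3 h1 h2 (by linarith) h
  rcases le_total y (1) with h | h
  · exact seg4 h1 h2 (by linarith) h
  rcases le_total y (3 / 2) with h | h
  · exact seg5 h1 h2 (by linarith) h
  exact seg6 h1 h2 (by linarith) hb

lemma R5_dup {w : ℝ} (hw : w ^ 2 = w + 8) (y : ℝ) :
    R5 w (y ^ 2 - 2) = -(R5 w y * R5 w (-y)) := by
  unfold R5
  linear_combination ((-4) * y ^ 2 + (9) * y ^ 4 + (-6) * y ^ 6 + (1) * y ^ 8) * hw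

/-- The conjugate quintic. -/
noncomputable def R5c (w y : ℝ) : ℝ :=
  y ^ 5 + (w - 1) * y ^ 4 - y ^ 3 + (6 - 3 * w) * y ^ 2 - (7 - 2 * w) * y + 1

/-- The Dickson polynomials of degree 17 and 16. -/
noncomputable def C17 (y : ℝ) : ℝ := (17) * y + (-204) * y ^ 3 + (714) * y ^ 5 + (-1122) * y ^ 7 + (935) * y ^ 9 + (-442) * y ^ 11 + (119) * y ^ 13 + (-17) * y ^ 15 + (1) * y ^ 17

/-- The Dickson polynomial of degree 16. -/
noncomputable def C16 (y : ℝ) : ℝ := (2) + (-64) * y ^ 2 + (336) * y ^ 4 + (-672) * y ^ 6 + (660) * y ^ 8 + (-352) * y ^ 10 + (104) * y ^ 12 + (-16) * y ^ 14 + (1) * y ^ 16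

lemma C17_sub_C16 {w : ℝ} (hw : w ^ 2 = w + 8) (y : ℝ) :
    C17 y - C16 y = (y - 2) * (y + 1) * (y ^ 5 + y ^ 4 - 4 * y ^ 3 - 3 * y ^ 2 + 3 * y + 1) *
      (R5 w y * R5c w y) := by
  unfold C17 C16 R5 R5c
  linear_combination ((-8) * y ^ 2 + (-4) * y ^ 3 + (82) * y ^ 4 + (-63) * y ^ 5 + (-152) * y ^ 6 + (168) * y ^ 7 + (105) * y ^ 8 + (-154) * y ^ 9 + (-30) * y ^ 10 + (65) * y ^ 11 + (3) * y ^ 12 + (-13) * y ^ 13 + (1) * y ^ 15) * hw

end Pool.Agent.Q63.Flower
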