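import Mathlib

/-!
# Flowers and maximizing measures for the doubling map: definitions
-/

open MeasureTheory Set Real
open scoped ENNReal

namespace Pool.Agent.Q63.Flower

/-- The circle `ℝ / ℤ`. -/
abbrev T := UnitAddCircle

/-- The doubling map `E₂ x = 2 x mod 1`. -/
def dbl (x : T) : T := x + x

/-- `μ` is an `E₂`-invariant Borel probability measure. -/
def Inv (μ : Measure T) : Prop := IsProbabilityMeasure μ ∧ μ.map dbl = μ

/-- `β(f) = sup ∫ f dμ` over the invariant probability measures. -/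
noncomputable def beta (f : T → ℝ) : ℝ := sSup {r : ℝ | ∃ μ : Measure T, Inv μ ∧ r = ∫ x, f x ∂μ}

/-- `μ` is a maximizing measure for `f`. -/
def Maximizing (f : T → ℝ) (μ : Measure T) : Prop := Inv μ ∧ ∫ x, f x ∂μ = beta f

/-- A closed non-degenerate arc. -/
def IsArc (A : Set T) : Prop :=
  ∃ a b : ℝ, a < b ∧ A = (fun t : ℝ => (t : T)) '' Icc a b

/-- The half turn `x ↦ x + 1/2`. -/
noncomputable def turn (x : T) : T := x + ((1 / 2 : ℝ) : T)

/-- A flower: a finite union of closed non-degenerate arcs with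
`X ∪ (X + 1/2) = 𝕋` and `X ∩ (X + 1/2) = ∂X`. -/
def IsFlower (X : Set T) : Prop :=
  (∃ S : Set (Set T), S.Finite ∧ (∀ A ∈ S, IsArc A) ∧ X = ⋃₀ S) ∧
    X ∪ turn '' X = univ ∧ X ∩ turn '' X = frontier X

/-- The petals of `X`: its connected components. -/
def petals (X : Set T) : Set (Set T) := {C | ∃ x ∈ X, C = connectedComponentIn X x}

/-- The class `V_n`: real trigonometric polynomials with odd frequencies `≤ n`, not all
coefficients zero. -/
def TrigOdd (n : ℕ) (f : T → ℝ) : Prop :=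
  ∃ a b : ℕ → ℝ, (∃ k, Odd k ∧ k ≤ n ∧ (a k ≠ 0 ∨ b k ≠ 0)) ∧
    ∀ t : ℝ, f (t : T) =
      ∑ k ∈ (Finset.range (n + 1)).filter Odd,
        (a k * cos (2 * π * k * t) + b k * sin (2 * π * k * t))

/-! ## The coordinate `Y = 2 cos 2πx` -/

/-- `Y x = 2 cos (2 π x)`. -/
noncomputable def Y (x : T) : ℝ := 2 * (AddCircle.toCircle x : ℂ).re

lemma Y_coe (t : ℝ) : Y (t : T) = 2 * cos (2 * π * t) := by
  unfold Y
  rw [AddCircle.toCircle_apply_mk, Circle.coe_exp]
  have : ((2 * π / 1 * t : ℝ) : ℂ) * Complex.I = ((2 * π * t : ℝ) : ℂ) * Complex.I := by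
    norm_num
  rw [this, Complex.exp_ofReal_mul_I_re]

lemma Y_continuous : Continuous Y := by
  unfold Y
  exact continuous_const.mul
    (Complex.continuous_re.comp (continuous_subtype_val.comp AddCircle.continuous_toCircle))

lemma exists_lift (x : T) : ∃ t : ℝ, (t : T) = x := QuotientAddGroup.mk_surjective x

lemma exists_lift_Ico (a : ℝ) (x : T) : ∃ t : ℝ, a ≤ t ∧ t < a + 1 ∧ (t : T) = x := by
  have := (AddCircle.equivIco (1 : ℝ) a).symm_apply_apply x
  refine ⟨((AddCircle.equivIco (1 : ℝ) a) x : ℝ), ((AddCircle.equivIco (1 : ℝ) a) x).2.1,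
    ((AddCircle.equivIco (1 : ℝ) a) x).2.2, ?_⟩
  simp

lemma Y_dbl (x : T) : Y (dbl x) = Y x ^ 2 - 2 := by
  obtain ⟨t, rfl⟩ := exists_lift x
  have h : dbl (t : T) = ((t + t : ℝ) : T) := by
    unfold dbl; rw [← AddCircle.coe_add]
  rw [h, Y_coe, Y_coe]
  have : 2 * π * (t + t) = 2 * (2 * π * t) := by ring
  rw [this, cos_two_mul]; ring

lemma Y_nsmul_coe (m : ℕ) (t : ℝ) : Y (m • (t : T)) = 2 * cos (2 * π * (m * t)) := by
  have : m • (t : T) = ((m * t : ℝ) : T) := by
    rw [← AddCircle.coe_nsmul, nsmul_eq_mul]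
  rw [this, Y_coe]

lemma Y_le (x : T) : Y x ≤ 2 := by
  obtain ⟨t, rfl⟩ := exists_lift x
  rw [Y_coe]; linarith [cos_le_one (2 * π * t)]

lemma neg_le_Y (x : T) : -2 ≤ Y x := by
  obtain ⟨t, rfl⟩ := exists_lift x
  rw [Y_coe]; linarith [neg_one_le_cos (2 * π * t)]

lemma dbl_continuous : Continuous dbl := continuous_id.add continuous_id

lemma dbl_measurable : Measurable dbl := dbl_continuous.measurable

end Pool.Agent.Q63.Flower
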