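import Pool.Agent.Q63.Flower.Main33

/-!
# The disproof for `n = 3` and all odd `n ≥ 9`
-/

open MeasureTheory Set Real
open scoped ENNReal Topology

namespace Pool.Agent.Q63.Flower

/-- The maximizing measure of `f_m`. -/
noncomputable def mum (m : ℕ) [NeZero (33 * m)] : Measure T := unif (lift 33 m K33)

lemma mum_maximizing (m : ℕ) [NeZero (33 * m)] (hm : Odd m) :
    Maximizing (fm m) (mum m) ∧ beta (fm m) = 2 + 2 * om := by
  have hodd : Odd (33 * m) := Odd.mul (by decide) hm
  refine maximizing_unif' (fm_continuous m) (pot_continuous m) (fm_cert m) (lift 33 m K33) ?_ ?_ ?_ ?_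
  · refine ⟨_, mem_lift_int (N := 33) (m := m) 0 ?_⟩
    decide
  · intro x hx; exact dbl_mem_lift K33_dbl hx
  · intro x hx y hy h; exact dbl_inj_lift hodd hx hy h
  · intro x hx
    obtain ⟨r, hr, hrx⟩ := nsmul_mem_of_mem_lift hm.pos hx
    exact fm_cert_eq (by rw [hrx]; exact good_K33 hr)

/-- Numerators (over `66`) of the chosen points of the support. -/
def kk : Fin 5 → ℕ := ![0, 2, 32, 34, 64]

/-- Numerators (over `66`) of the separating points. -/
def ee : Fin 5 → ℕ := ![1, 17, 33, 35, 65]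

/-- Half-numerators of the support points. -/
def kh : Fin 5 → ℤ := ![0, 1, 16, 17, 32]

/-- The antipodes of the separating points, over `33`. -/
def eh : Fin 5 → ℤ := ![-16, -8, 0, 1, 16]

lemma five_m_le (m : ℕ) [NeZero (33 * m)] (hm : Odd m) {X : Set T} (hX : IsFlower X)
    (hsup : (mum m).support ⊆ X) : ((5 * m : ℕ) : ℕ∞) ≤ (petals X).encard := by
  have hm0 : 0 < m := hm.pos
  have hmR : (0 : ℝ) < m := Nat.cast_pos.2 hm0
  have hL : ∀ x ∈ lift 33 m K33, x ∈ X := fun x hx => hsup (mem_support_unif _ hx)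
  have hk : ∀ i : Fin 5, (kk i : ℤ) = 2 * kh i := by decide
  have he : ∀ i : Fin 5, (ee i : ℤ) = 2 * eh i + 33 := by decide
  have hkK : ∀ i : Fin 5, ((kh i : ℤ) : ZMod 33) ∈ K33 := by decide
  have heK : ∀ i : Fin 5, ((eh i : ℤ) : ZMod 33) ∈ K33 := by decide
  have hke : ∀ i : Fin 5, kk i < ee i := by decide
  have he66 : ∀ i : Fin 5, ee i < 66 := by decide
  have hk66 : ∀ i : Fin 5, kk i < 66 := by decide
  have hke2 : ∀ i j : Fin 5, kk i < kk j → ee i < kk j := by decide
  have hkinj : ∀ i j : Fin 5, kk i = kk j → i = j := by decide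
  have key := petals_ge (ι := Fin m × Fin 5) (X := X)
    (fun p => ((66 * (p.1 : ℕ) + kk p.2 : ℕ) : ℝ) / (66 * m))
    (fun p => ((66 * (p.1 : ℕ) + ee p.2 : ℕ) : ℝ) / (66 * m))
    (fun p => by positivity)
    (fun p => by
      apply div_lt_div_of_pos_right _ (by positivity)
      exact_mod_cast (by have := hke p.2; omega))
    (fun p => by
      rw [div_lt_one (by positivity)]
      have h1 := p.1.2
      have h2 := he66 p.2
      have : 66 * (p.1 : ℕ) + ee p.2 < 66 * m := by omega
      exact_mod_cast this)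
    (fun p q hpq => by
      have h1 : ((66 * (p.1 : ℕ) + kk p.2 : ℕ) : ℝ) = ((66 * (q.1 : ℕ) + kk q.2 : ℕ) : ℝ) := by
        have h66 : (66 * (m : ℝ)) ≠ 0 := by positivity
        exact (div_left_inj' h66).1 hpq
      have h2 : 66 * (p.1 : ℕ) + kk p.2 = 66 * (q.1 : ℕ) + kk q.2 := by exact_mod_cast h1
      have h3 := hk66 p.2
      have h4 := hk66 q.2
      have h5 : (p.1 : ℕ) = (q.1 : ℕ) := by omega
      have h6 : kk p.2 = kk q.2 := by omega
      exact Prod.ext (Fin.ext h5) (hkinj _ _ h6))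
    (fun p q hpq => by
      have h66 : (0 : ℝ) < 66 * (m : ℝ) := by positivity
      have h1 : ((66 * (p.1 : ℕ) + kk p.2 : ℕ) : ℝ) < ((66 * (q.1 : ℕ) + kk q.2 : ℕ) : ℝ) :=
        (div_lt_div_iff_of_pos_right h66).1 hpq
      have h2 : 66 * (p.1 : ℕ) + kk p.2 < 66 * (q.1 : ℕ) + kk q.2 := by exact_mod_cast h1
      apply div_lt_div_of_pos_right _ h66
      have h3 := hk66 p.2
      have h4 := hk66 q.2
      have h5 := he66 p.2
      have h6 : 66 * (p.1 : ℕ) + ee p.2 < 66 * (q.1 : ℕ) + kk q.2 := by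
        rcases Nat.lt_trichotomy (p.1 : ℕ) (q.1 : ℕ) with h | h | h
        · omega
        · have := hke2 p.2 q.2 (by omega)
          omega
        · omega
      exact_mod_cast h6)
    (fun p => by
      apply hL
      have e : ((66 * (p.1 : ℕ) + kk p.2 : ℕ) : ℝ) / (66 * m) =
          (((33 * (p.1 : ℕ) + kh p.2 : ℤ) : ℝ) / ((33 * m : ℕ) : ℝ)) := by
        have h := hk p.2
        have h' : ((kk p.2 : ℕ) : ℝ) = 2 * ((kh p.2 : ℤ) : ℝ) := by exact_mod_cast h
        push_cast
        rw [h']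
        field_simp
        ring
      rw [e]
      apply mem_lift_int
      have h33 : ((33 : ℕ) : ZMod 33) = 0 := ZMod.natCast_self 33
      push_cast at h33 ⊢
      rw [h33, zero_mul, zero_add]
      exact hkK p.2)
    (fun p => by
      obtain ⟨h, hh⟩ := hm
      have e : ((((66 * (p.1 : ℕ) + ee p.2 : ℕ) : ℝ) / (66 * m) : ℝ) : T) =
          turn ((((33 * ((p.1 : ℕ) - h : ℤ) + eh p.2 : ℤ) : ℝ) / ((33 * m : ℕ) : ℝ) : ℝ) : T) := by
        unfold turn
        rw [← AddCircle.coe_add]
        congr 1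
        have h1 := he p.2
        have h1' : ((ee p.2 : ℕ) : ℝ) = 2 * ((eh p.2 : ℤ) : ℝ) + 33 := by exact_mod_cast h1
        have hmh : (m : ℝ) = 2 * h + 1 := by exact_mod_cast hh
        have hm' : (m : ℝ) ≠ 0 := hmR.ne'
        push_cast
        rw [h1']
        field_simp
        rw [hmh]
        ring
      rw [e]
      apply hX.not_interior
      apply hL
      apply mem_lift_int
      have h33 : ((33 : ℕ) : ZMod 33) = 0 := ZMod.natCast_self 33
      push_cast at h33 ⊢
      rw [h33, zero_mul, zero_add]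
      exact heK p.2)
  have hcard : Fintype.card (Fin m × Fin 5) = 5 * m := by
    rw [Fintype.card_prod, Fintype.card_fin, Fintype.card_fin, mul_comm]
  rw [hcard] at key
  exact key

/-- For odd `m`, the function `f_m ∈ V_{3m}` has a maximizing measure whose support is contained in
no flower with fewer than `5m` petals. -/
theorem five_m (m : ℕ) (hm : Odd m) : ∃ μ : Measure T, Maximizing (fm m) μ ∧
    ∀ X : Set T, IsFlower X → μ.support ⊆ X → ((5 * m : ℕ) : ℕ∞) ≤ (petals X).encard := by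
  have : NeZero (33 * m) := ⟨by have := hm.pos; omega⟩
  exact ⟨mum m, (mum_maximizing m hm).1, fun X hX h => five_m_le m hm hX h⟩

/-- every odd `n ≥ 9` lies in `[3m, 5m)` for some odd `m` -/
lemma exists_m {n : ℕ} (hn : Odd n) (h : n = 3 ∨ 9 ≤ n) : ∃ m, Odd m ∧ 3 * m ≤ n ∧ n < 5 * m := by
  rcases h with rfl | h
  · exact ⟨1, by decide, by norm_num, by norm_num⟩
  · rcases Nat.even_or_odd (n / 3) with he | ho
    · refine ⟨n / 3 - 1, ?_, by omega, ?_⟩
      · obtain ⟨k, hk⟩ := he
        exact ⟨k - 1, by omega⟩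
      · obtain ⟨k, hk⟩ := he
        obtain ⟨l, hl⟩ := hn
        omega
    · exact ⟨n / 3, ho, by omega, by omega⟩

end Pool.Agent.Q63.Flower
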