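import Pool.Agent.Q63.Flower.Defs

/-!
# Lower bounds for the number of petals
-/

open MeasureTheory Set Real
open scoped ENNReal Topology

namespace Pool.Agent.Q63.Flower

/-- The arc `π (a, b)`. -/
def oarc (a b : ℝ) : Set T := (fun t : ℝ => (t : T)) '' Ioo a b

lemma oarc_open (a b : ℝ) : IsOpen (oarc a b) :=
  QuotientAddGroup.isOpenMap_coe _ isOpen_Ioo

lemma coe_inj_Ico {a s t : ℝ} (hs : s ∈ Ico a (a + 1)) (ht : t ∈ Ico a (a + 1))
    (h : (s : T) = (t : T)) : s = t :=
  (AddCircle.coe_eq_coe_iff_of_mem_Ico hs ht).1 h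

lemma coe_add_one (t : ℝ) : ((t + 1 : ℝ) : T) = (t : T) := AddCircle.coe_add_period (1 : ℝ) t

/-- Two points of `X` separated on both sides by points outside the interior of `X` lie in
different components. -/
lemma diff_comp {X : Set T} {p y q z : ℝ} (h1 : p < y) (h2 : y < q) (h3 : q < z) (h4 : z < p + 1)
    (hq : (q : T) ∈ X) (hy : (y : T) ∉ interior X) (hz : (z : T) ∉ interior X) :
    connectedComponentIn X (p : T) ≠ connectedComponentIn X (q : T) := by
  intro hC
  have hqC : (q : T) ∈ connectedComponentIn X (p : T) := by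
    rw [hC]; exact mem_connectedComponentIn hq
  have hsub : connectedComponentIn X (p : T) ⊆ X := connectedComponentIn_subset X _
  have hpX : (p : T) ∈ X := by
    by_contra hp
    rw [connectedComponentIn_eq_empty hp] at hqC
    exact hqC
  have hpC : (p : T) ∈ connectedComponentIn X (p : T) := mem_connectedComponentIn hpX
  set C := connectedComponentIn X (p : T) with hCdef
  have hpre : IsPreconnected C := isPreconnected_connectedComponentIn
  obtain ⟨u, hu, huC⟩ : ∃ u ∈ Ioo p q, (u : T) ∉ C := by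
    by_contra hcon
    push Not at hcon
    apply hy
    refine mem_interior.2 ⟨oarc p q, ?_, oarc_open p q, ⟨y, ⟨h1, h2⟩, rfl⟩⟩
    rintro _ ⟨t, ht, rfl⟩
    exact hsub (hcon t ht)
  obtain ⟨v, hv, hvC⟩ : ∃ v ∈ Ioo q (p + 1), (v : T) ∉ C := by
    by_contra hcon
    push Not at hcon
    apply hz
    refine mem_interior.2 ⟨oarc q (p + 1), ?_, oarc_open q (p + 1), ⟨z, ⟨h3, h4⟩, rfl⟩⟩
    rintro _ ⟨t, ht, rfl⟩
    exact hsub (hcon t ht)
  obtain ⟨w, hwC, ⟨s, hs, hs'⟩, ⟨t, ht, ht'⟩⟩ := hpre (oarc u v) (oarc v (u + 1)) (oarc_open _ _)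
    (oarc_open _ _) (by
      intro x hx
      obtain ⟨t, ht1, ht2, rfl⟩ := exists_lift_Ico u x
      rcases eq_or_lt_of_le ht1 with h | h
      · exact absurd (h ▸ hx) huC
      · rcases lt_trichotomy t v with h' | h' | h'
        · exact Or.inl ⟨t, ⟨h, h'⟩, rfl⟩
        · exact absurd (h' ▸ hx) hvC
        · exact Or.inr ⟨t, ⟨h', ht2⟩, rfl⟩)
    ⟨(q : T), hqC, q, ⟨hu.2, hv.1⟩, rfl⟩
    ⟨(p : T), hpC, p + 1, ⟨hv.2, by linarith [hu.1]⟩, coe_add_one p⟩
  have hst : s = t := by
    apply coe_inj_Ico (a := u) ⟨hs.1.le, by linarith [hs.2, hv.2, hu.1]⟩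
      ⟨by linarith [ht.1, hu.2, hv.1], ht.2⟩
    exact hs'.trans ht'.symm
  rw [hst] at hs
  exact lt_asymm hs.2 ht.1

lemma petals_ge {ι : Type*} [Fintype ι] {X : Set T} (t s : ι → ℝ) (ht0 : ∀ i, 0 ≤ t i)
    (hts : ∀ i, t i < s i) (hs1 : ∀ i, s i < 1) (hinj : Function.Injective t)
    (hsep : ∀ i j, t i < t j → s i < t j)
    (htX : ∀ i, (t i : T) ∈ X) (hsX : ∀ i, (s i : T) ∉ interior X) :
    (Fintype.card ι : ℕ∞) ≤ (petals X).encard := by
  have hF : Function.Injective (fun i => connectedComponentIn X (t i : T)) := by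
    intro i j hij
    by_contra hne
    rcases lt_or_gt_of_ne (fun h => hne (hinj h)) with h | h
    · exact diff_comp (hts i) (hsep i j h) (hts j) (by linarith [hs1 j, ht0 i]) (htX j) (hsX i)
        (hsX j) hij
    · exact diff_comp (hts j) (hsep j i h) (hts i) (by linarith [hs1 i, ht0 j]) (htX i) (hsX j)
        (hsX i) hij.symm
  have h1 : (Set.range (fun i => connectedComponentIn X (t i : T))) ⊆ petals X := by
    rintro _ ⟨i, rfl⟩
    exact ⟨_, htX i, rfl⟩
  calc (Fintype.card ι : ℕ∞) = (Set.univ : Set ι).encard := by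
        rw [Set.encard_univ, ENat.card_eq_coe_fintype_card]
    _ = (Set.range (fun i => connectedComponentIn X (t i : T))).encard := by
        rw [← Set.image_univ, hF.encard_image]
    _ ≤ _ := Set.encard_le_encard h1

lemma IsFlower.not_interior {X : Set T} (hX : IsFlower X) {z : T} (hz : z ∈ X) :
    turn z ∉ interior X := by
  intro h
  have h1 : turn z ∈ X ∩ turn '' X := ⟨interior_subset h, z, hz, rfl⟩
  rw [hX.2.2] at h1
  exact h1.2 h

end Pool.Agent.Q63.Flower
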