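import Pool.Agent.Q63.Flower.Unif
import Pool.Agent.Q63.Flower.Petals
import Pool.Agent.Q63.Flower.Cert33

/-!
# The function `22 cos 2πx - (19 - √33) cos 6πx` and its multiples
-/

open MeasureTheory Set Real
open scoped ENNReal Topology

namespace Pool.Agent.Q63.Flower

/-! ## The general lifting argument -/

/-- If the certificate is an equality on a finite set permuted by `E₂`, the uniform measure on
this set is maximizing. -/
lemma maximizing_unif' {f Φ : T → ℝ} (hf : Continuous f) (hΦ : Continuous Φ) {M : ℝ}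
    (h : ∀ x, f x ≤ M + Φ (dbl x) - Φ x) (S : Finset T) (hne : S.Nonempty)
    (hmaps : ∀ x ∈ S, dbl x ∈ S)
    (hinj : ∀ x ∈ S, ∀ y ∈ S, dbl x = dbl y → x = y)
    (hS : ∀ x ∈ S, f x = M + Φ (dbl x) - Φ x) :
    Maximizing f (unif S) ∧ beta f = M := by
  classical
  refine maximizing_unif hf hΦ h S hne hmaps hinj ?_
  have himg : S.image dbl = S := by
    apply Finset.eq_of_subset_of_card_le
    · intro x hx
      obtain ⟨y, hy, rfl⟩ := Finset.mem_image.1 hx
      exact hmaps y hy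
    · rw [Finset.card_image_of_injOn (fun x hx y hy h => hinj x hx y hy h)]
  have h1 : ∑ x ∈ S, Φ (dbl x) = ∑ x ∈ S, Φ x := by
    conv_rhs => rw [← himg]
    rw [Finset.sum_image (fun x hx y hy h => hinj x hx y hy h)]
  rw [Finset.sum_congr rfl hS, Finset.sum_sub_distrib, Finset.sum_add_distrib, h1]
  simp

/-- The lift of a set of residues mod `N` to residues mod `N * m`. -/
noncomputable def lift (N m : ℕ) [NeZero (N * m)] (K : Finset (ZMod N)) : Finset T := by
  classical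
  exact ((Finset.univ : Finset (ZMod (N * m))).filter
    (fun r => ZMod.castHom (Dvd.intro m rfl) (ZMod N) r ∈ K)).image
      (fun r => (ZMod.toAddCircle r : T))

lemma mem_lift {N m : ℕ} [NeZero (N * m)] {K : Finset (ZMod N)} {x : T} :
    x ∈ lift N m K ↔ ∃ r : ZMod (N * m), ZMod.castHom (Dvd.intro m rfl) (ZMod N) r ∈ K ∧
      ZMod.toAddCircle r = x := by
  classical
  unfold lift
  simp [Finset.mem_image]

lemma mem_lift_int {N m : ℕ} [NeZero (N * m)] {K : Finset (ZMod N)} (j : ℤ)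
    (hj : (j : ZMod N) ∈ K) : (((j : ℝ) / (N * m : ℕ) : ℝ) : T) ∈ lift N m K := by
  rw [mem_lift]
  refine ⟨(j : ZMod (N * m)), ?_, ?_⟩
  · rw [map_intCast]; exact hj
  · rw [ZMod.toAddCircle_intCast]

lemma nsmul_toAddCircle {N m : ℕ} [NeZero N] [NeZero (N * m)] (hm : 0 < m) (r : ZMod (N * m)) :
    m • (ZMod.toAddCircle r : T) = ZMod.toAddCircle (ZMod.castHom (Dvd.intro m rfl) (ZMod N) r) := by
  obtain ⟨j, rfl⟩ : ∃ j : ℕ, (j : ZMod (N * m)) = r := ⟨r.val, ZMod.natCast_zmod_val r⟩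
  rw [ZMod.toAddCircle_natCast, map_natCast, ZMod.toAddCircle_natCast, ← AddCircle.coe_nsmul,
    nsmul_eq_mul]
  congr 1
  have h1 : (N : ℝ) ≠ 0 := Nat.cast_ne_zero.2 (NeZero.ne N)
  have h2 : (m : ℝ) ≠ 0 := Nat.cast_ne_zero.2 hm.ne'
  push_cast
  field_simp

lemma nsmul_mem_of_mem_lift {N m : ℕ} [NeZero N] [NeZero (N * m)] (hm : 0 < m)
    {K : Finset (ZMod N)} {x : T} (hx : x ∈ lift N m K) :
    ∃ r ∈ K, m • x = ZMod.toAddCircle r := by
  obtain ⟨r, hr, rfl⟩ := mem_lift.1 hx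
  exact ⟨_, hr, nsmul_toAddCircle hm r⟩

lemma dbl_mem_lift {N m : ℕ} [NeZero (N * m)] {K : Finset (ZMod N)}
    (hK : ∀ r ∈ K, r + r ∈ K) {x : T} (hx : x ∈ lift N m K) : dbl x ∈ lift N m K := by
  obtain ⟨r, hr, rfl⟩ := mem_lift.1 hx
  refine mem_lift.2 ⟨r + r, ?_, ?_⟩
  · rw [map_add]; exact hK _ hr
  · rw [map_add]; rfl

lemma dbl_inj_lift {N m : ℕ} [NeZero (N * m)] {K : Finset (ZMod N)} (hodd : Odd (N * m))
    {x y : T} (hx : x ∈ lift N m K) (hy : y ∈ lift N m K) (h : dbl x = dbl y) : x = y := by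
  obtain ⟨r, hr, rfl⟩ := mem_lift.1 hx
  obtain ⟨s, hs, rfl⟩ := mem_lift.1 hy
  have h1 : r + r = s + s := by
    apply ZMod.toAddCircle_injective (N := N * m)
    rw [map_add, map_add]; exact h
  have hu : IsUnit ((2 : ℕ) : ZMod (N * m)) := by
    rw [ZMod.isUnit_iff_coprime]
    exact (Nat.coprime_two_left).2 hodd
  have h2 : ((2 : ℕ) : ZMod (N * m)) * r = ((2 : ℕ) : ZMod (N * m)) * s := by
    push_cast; linear_combination h1
  rw [hu.mul_left_cancel h2]

lemma dbl_nsmul (m : ℕ) (x : T) : m • dbl x = dbl (m • x) := by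
  unfold dbl; exact nsmul_add x x m

/-! ## The number `(1 + √33) / 2` -/

/-- `(1 + √33) / 2`. -/
noncomputable def om : ℝ := (1 + √33) / 2

lemma om_sq : om ^ 2 = om + 8 := by
  unfold om
  have h : (√33 : ℝ) ^ 2 = 33 := Real.sq_sqrt (by norm_num)
  linear_combination h / 4

lemma om_lo : 337228 / 100000 ≤ om := by
  unfold om
  have : (574456 / 100000 : ℝ) ≤ √33 := Real.le_sqrt_of_sq_le (by norm_num)
  linarith

lemma om_hi : om ≤ 337229 / 100000 := by
  unfold om
  have : √33 ≤ (574458 / 100000 : ℝ) := by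
    rw [Real.sqrt_le_left (by norm_num)]; norm_num
  linarith

/-! ## The root `2 cos (2π/33)` -/

lemma two_cos_mul (a b : ℝ) : (2 * cos a) * (2 * cos b) = 2 * cos (a + b) + 2 * cos (a - b) := by
  rw [cos_add, cos_sub]; ring

lemma C16_cos (θ : ℝ) : C16 (2 * cos θ) = 2 * cos (16 * θ) := by
  have h2 : 2 * cos (2 * θ) = (2 * cos θ) ^ 2 - 2 := by rw [cos_two_mul]; ring
  have h4 : 2 * cos (4 * θ) = (2 * cos (2 * θ)) ^ 2 - 2 := by
    rw [show 4 * θ = 2 * (2 * θ) by ring, cos_two_mul (2 * θ)]; ring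
  have h8 : 2 * cos (8 * θ) = (2 * cos (4 * θ)) ^ 2 - 2 := by
    rw [show 8 * θ = 2 * (4 * θ) by ring, cos_two_mul (4 * θ)]; ring
  have h16 : 2 * cos (16 * θ) = (2 * cos (8 * θ)) ^ 2 - 2 := by
    rw [show 16 * θ = 2 * (8 * θ) by ring, cos_two_mul (8 * θ)]; ring
  rw [h16, h8, h4, h2]
  unfold C16
  ring

lemma C17_cos (θ : ℝ) : C17 (2 * cos θ) = 2 * cos (17 * θ) := by
  have h2 : 2 * cos (2 * θ) = (2 * cos θ) ^ 2 - 2 := by rw [cos_two_mul]; ring
  have h3 : 2 * cos (3 * θ) = (2 * cos (2 * θ)) * (2 * cos θ) - 2 * cos θ := by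
    rw [two_cos_mul]; ring_nf
  have h4 : 2 * cos (4 * θ) = (2 * cos (2 * θ)) ^ 2 - 2 := by
    rw [show 4 * θ = 2 * (2 * θ) by ring, cos_two_mul (2 * θ)]; ring
  have h5 : 2 * cos (5 * θ) = (2 * cos (3 * θ)) * (2 * cos (2 * θ)) - 2 * cos θ := by
    rw [two_cos_mul]; ring_nf
  have h8 : 2 * cos (8 * θ) = (2 * cos (4 * θ)) ^ 2 - 2 := by
    rw [show 8 * θ = 2 * (4 * θ) by ring, cos_two_mul (4 * θ)]; ring
  have h9 : 2 * cos (9 * θ) = (2 * cos (5 * θ)) * (2 * cos (4 * θ)) - 2 * cos θ := by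
    rw [two_cos_mul]; ring_nf
  have h17 : 2 * cos (17 * θ) = (2 * cos (9 * θ)) * (2 * cos (8 * θ)) - 2 * cos θ := by
    rw [two_cos_mul]; ring_nf
  rw [h17, h9, h8, h5, h4, h3, h2]
  unfold C17
  ring

lemma R5_root : R5 om (2 * cos (2 * π / 33)) = 0 := by
  set θ : ℝ := 2 * π / 33 with hθ
  set y : ℝ := 2 * cos θ with hy
  have hpi := Real.pi_lt_d2
  have hpi0 := Real.pi_pos
  have hθ0 : 0 < θ := by rw [hθ]; positivity
  have hθ1 : θ ≤ 191 / 1000 := by rw [hθ]; linarith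
  have hylt : y < 2 := by
    have := Real.cos_lt_cos_of_nonneg_of_le_pi (x := 0) (y := θ) le_rfl (by linarith) hθ0
    rw [cos_zero] at this; linarith
  have hyge : 196 / 100 ≤ y := by
    have := Real.one_sub_sq_div_two_le_cos (x := θ)
    nlinarith
  have h17 : C17 y - C16 y = 0 := by
    rw [hy, C17_cos, C16_cos]
    have : 17 * θ = 2 * π - 16 * θ := by rw [hθ]; ring
    rw [this, cos_two_pi_sub]; ring
  rw [C17_sub_C16 om_sq] at h17
  have w1 := om_lo
  have w2 := om_hi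
  have hy2 : (384 / 100 : ℝ) ≤ y ^ 2 := by nlinarith
  have hy3 : (75 / 10 : ℝ) ≤ y ^ 3 := by nlinarith
  have hc : 0 < R5c om y := by
    have e : R5c om y = y ^ 3 * (y ^ 2 - 1) + y ^ 2 * ((om - 1) * y ^ 2 + (6 - 3 * om)) +
      (1 - (7 - 2 * om) * y) := by unfold R5c; ring
    have a1 : 0 < y ^ 3 * (y ^ 2 - 1) := mul_pos (by linarith) (by linarith)
    have a2 : 0 ≤ (om - 1) * y ^ 2 + (6 - 3 * om) := by nlinarith
    have a3 : 0 ≤ y ^ 2 * ((om - 1) * y ^ 2 + (6 - 3 * om)) := mul_nonneg (by positivity) a2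
    have a4 : 0 < 1 - (7 - 2 * om) * y := by nlinarith
    rw [e]; linarith
  have hq : 0 < y ^ 5 + y ^ 4 - 4 * y ^ 3 - 3 * y ^ 2 + 3 * y + 1 := by
    have e : y ^ 5 + y ^ 4 - 4 * y ^ 3 - 3 * y ^ 2 + 3 * y + 1 =
      y ^ 3 * (y ^ 2 + y - 4) - 3 * (y * (y - 1)) + 1 := by ring
    have a1 : (75 / 10 : ℝ) * (18 / 10) ≤ y ^ 3 * (y ^ 2 + y - 4) :=
      mul_le_mul hy3 (by linarith) (by norm_num) (by linarith)
    have a2 : y * (y - 1) ≤ 2 := by nlinarith
    rw [e]; linarith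
  have n1 : y - 2 ≠ 0 := by linarith
  have n2 : y + 1 ≠ 0 := by linarith
  rcases mul_eq_zero.1 h17 with h | h
  · exfalso
    rcases mul_eq_zero.1 h with h' | h'
    · rcases mul_eq_zero.1 h' with h'' | h''
      · exact n1 h''
      · exact n2 h''
    · exact hq.ne' h'
  · rcases mul_eq_zero.1 h with h' | h'
    · exact h'
    · exact absurd h' hc.ne'

/-! ## The periodic set -/

/-- The points where the certificate is an equality. -/
def Good (x : T) : Prop := R5 om (Y x) = 0 ∨ Y x = 2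

lemma Good.dbl' {x : T} (h : Good x) : Good (dbl x) := by
  unfold Good at *
  rw [Y_dbl]
  rcases h with h | h
  · left; rw [R5_dup om_sq, h]; ring
  · right; rw [h]; norm_num

/-- The residues of the periodic set mod `33`. -/
def K33 : Finset (ZMod 33) := {0, 1, 2, 4, 8, 16, 32, 31, 29, 25, 17}

lemma good_K33 {r : ZMod 33} (hr : r ∈ K33) : Good (ZMod.toAddCircle r) := by
  have h1 : Good (ZMod.toAddCircle (1 : ZMod 33)) := by
    left
    have e : (ZMod.toAddCircle (1 : ZMod 33) : T) = ((1 / 33 : ℝ) : T) := by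
      have := ZMod.toAddCircle_natCast (N := 33) 1
      simpa using this
    rw [e, Y_coe]
    have : 2 * π * (1 / 33) = 2 * π / 33 := by ring
    rw [this]; exact R5_root
  have h2 : ∀ i : ℕ, Good (ZMod.toAddCircle ((2 : ZMod 33) ^ i)) := by
    intro i
    induction i with
    | zero => simpa using h1
    | succ i ih =>
      have e : (ZMod.toAddCircle ((2 : ZMod 33) ^ (i + 1)) : T) =
          dbl (ZMod.toAddCircle ((2 : ZMod 33) ^ i)) := by
        rw [pow_succ, mul_two, map_add]; rfl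
      rw [e]; exact ih.dbl'
  have h3 : ∀ r ∈ K33, r = 0 ∨ ∃ i < 10, r = (2 : ZMod 33) ^ i := by decide
  rcases h3 r hr with rfl | ⟨i, _, rfl⟩
  · right
    have e : (ZMod.toAddCircle (0 : ZMod 33) : T) = ((0 : ℝ) : T) := by simp
    rw [e, Y_coe]; simp
  · exact h2 i

lemma K33_dbl : ∀ r ∈ K33, r + r ∈ K33 := by decide

/-! ## The functions -/

/-- `f_m (x) = 22 cos (2πmx) - (19 - √33) cos (6πmx)`. -/
noncomputable def fm (m : ℕ) (x : T) : ℝ :=
  11 * Y (m • x) - (10 - om) * (Y (m • x) ^ 3 - 3 * Y (m • x))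

lemma fm_coe (m : ℕ) (t : ℝ) :
    fm m (t : T) = 22 * cos (2 * π * m * t) - (19 - √33) * cos (2 * π * (3 * m : ℕ) * t) := by
  unfold fm
  rw [Y_nsmul_coe]
  have h3 : cos (2 * π * (3 * m : ℕ) * t) =
      4 * cos (2 * π * (m * t)) ^ 3 - 3 * cos (2 * π * (m * t)) := by
    rw [← cos_three_mul]; congr 1; push_cast; ring
  have h1 : 2 * π * m * t = 2 * π * (m * t) := by ring
  rw [h3, h1]
  unfold om
  ring

lemma fm_continuous (m : ℕ) : Continuous (fm m) := by
  have h : Continuous (fun x : T => Y (m • x)) := Y_continuous.comp (continuous_const_smul m)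
  unfold fm
  fun_prop

lemma fm_trig {m n : ℕ} (hm : Odd m) (hn : 3 * m ≤ n) : TrigOdd n (fm m) := by
  have hm0 : 0 < m := hm.pos
  refine ⟨fun k => if k = m then 22 else if k = 3 * m then -(19 - √33) else 0, fun _ => 0,
    ⟨m, hm, by omega, Or.inl (by simp)⟩, ?_⟩
  intro t
  rw [fm_coe]
  have h3m : Odd (3 * m) := Odd.mul (by decide) hm
  have hsplit : ∀ k ∈ (Finset.range (n + 1)).filter Odd,
      ((if k = m then (22 : ℝ) else if k = 3 * m then -(19 - √33) else 0) * cos (2 * π * k * t) +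
        0 * sin (2 * π * k * t)) =
      (if k = m then 22 * cos (2 * π * m * t) else 0) +
      (if k = 3 * m then -(19 - √33) * cos (2 * π * (3 * m : ℕ) * t) else 0) := by
    intro k _
    by_cases h : k = m
    · subst h
      have : k ≠ 3 * k := by omega
      simp [this]
    · by_cases h' : k = 3 * m
      · subst h'; simp [h]
      · simp [h, h']
  rw [Finset.sum_congr rfl hsplit, Finset.sum_add_distrib, Finset.sum_ite_eq',
    Finset.sum_ite_eq', if_pos, if_pos]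
  · ring
  · simp only [Finset.mem_filter, Finset.mem_range]; exact ⟨by omega, h3m⟩
  · simp only [Finset.mem_filter, Finset.mem_range]; exact ⟨by omega, hm⟩

/-- The potential. -/
noncomputable def pot (m : ℕ) (x : T) : ℝ := Phi om (Y (m • x)) / 132

lemma pot_continuous (m : ℕ) : Continuous (pot m) := by
  have h : Continuous (fun x : T => Y (m • x)) := Y_continuous.comp (continuous_const_smul m)
  unfold pot Phi
  fun_prop

lemma fm_cert_aux (m : ℕ) (x : T) :
    132 * (2 + 2 * om - fm m x) + 132 * pot m (dbl x) - 132 * pot m x =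
      (2 - Y (m • x)) * R5 om (Y (m • x)) ^ 2 * Sf om (Y (m • x)) := by
  rw [← cert_identity om_sq]
  unfold pot fm
  rw [dbl_nsmul, Y_dbl]
  ring

lemma fm_cert (m : ℕ) (x : T) : fm m x ≤ (2 + 2 * om) + pot m (dbl x) - pot m x := by
  have h := fm_cert_aux m x
  have h1 : 0 ≤ (2 - Y (m • x)) * R5 om (Y (m • x)) ^ 2 * Sf om (Y (m • x)) :=
    mul_nonneg (mul_nonneg (by linarith [Y_le (m • x)]) (sq_nonneg _))
      (Sf_nonneg om_lo om_hi (neg_le_Y _) (Y_le _))
  linarith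

lemma fm_cert_eq {m : ℕ} {x : T} (h : Good (m • x)) :
    fm m x = (2 + 2 * om) + pot m (dbl x) - pot m x := by
  have h1 := fm_cert_aux m x
  have h2 : (2 - Y (m • x)) * R5 om (Y (m • x)) ^ 2 * Sf om (Y (m • x)) = 0 := by
    rcases h with h | h
    · rw [h]; ring
    · rw [h]; ring
  linarith

end Pool.Agent.Q63.Flower
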