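import Pool.Agent.Q63.Flower.Defs

/-!
# Uniform measures on periodic sets and the certificate principle
-/

open MeasureTheory Set Real
open scoped ENNReal Topology

namespace Pool.Agent.Q63.Flower

/-- The uniform measure on a finite set. -/
noncomputable def unif (S : Finset T) : Measure T :=
  (S.card : ℝ≥0∞)⁻¹ • ∑ x ∈ S, Measure.dirac x

lemma unif_apply (S : Finset T) {A : Set T} (hA : MeasurableSet A) :
    unif S A = (S.card : ℝ≥0∞)⁻¹ * ∑ x ∈ S, A.indicator 1 x := by
  unfold unif
  rw [Measure.smul_apply, Measure.finsetSum_apply, smul_eq_mul]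
  congr 1
  exact Finset.sum_congr rfl fun x _ => Measure.dirac_apply' x hA

lemma unif_inv (S : Finset T) (hne : S.Nonempty) (hmaps : ∀ x ∈ S, dbl x ∈ S)
    (hinj : ∀ x ∈ S, ∀ y ∈ S, dbl x = dbl y → x = y) : Inv (unif S) := by
  classical
  have hc : (S.card : ℝ≥0∞) ≠ 0 := by
    simpa using hne.ne_empty
  refine ⟨⟨?_⟩, ?_⟩
  · rw [unif_apply S MeasurableSet.univ]
    simp only [indicator_univ, Pi.one_apply, Finset.sum_const, nsmul_eq_mul, mul_one]
    exact ENNReal.inv_mul_cancel hc (by simp)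
  · have himg : S.image dbl = S := by
      apply Finset.eq_of_subset_of_card_le
      · intro x hx
        obtain ⟨y, hy, rfl⟩ := Finset.mem_image.1 hx
        exact hmaps y hy
      · rw [Finset.card_image_of_injOn (fun x hx y hy h => hinj x hx y hy h)]
    ext A hA
    rw [Measure.map_apply dbl_measurable hA, unif_apply S hA, unif_apply S (dbl_measurable hA)]
    congr 1
    conv_rhs => rw [← himg]
    rw [Finset.sum_image (fun x hx y hy h => hinj x hx y hy h)]
    rfl

lemma unif_integral (S : Finset T) (f : T → ℝ) (hf : Continuous f) :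
    ∫ x, f x ∂(unif S) = (S.card : ℝ)⁻¹ * ∑ x ∈ S, f x := by
  unfold unif
  rw [integral_smul_measure, integral_finsetSum_measure]
  · simp only [integral_dirac, ENNReal.toReal_inv, ENNReal.toReal_natCast, smul_eq_mul]
  · intro x _
    exact integrable_dirac (by finiteness)

lemma mem_support_unif (S : Finset T) {x : T} (hx : x ∈ S) : x ∈ (unif S).support := by
  rw [Measure.mem_support_iff_forall]
  intro U hU
  obtain ⟨V, hVU, hVo, hxV⟩ := mem_nhds_iff.1 hU
  refine lt_of_lt_of_le ?_ (measure_mono hVU)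
  rw [unif_apply S hVo.measurableSet]
  apply ENNReal.mul_pos
  · simp
  · have : (1 : ℝ≥0∞) ≤ ∑ x ∈ S, V.indicator 1 x := by
      refine le_trans ?_ (Finset.single_le_sum (f := fun x => V.indicator (1 : T → ℝ≥0∞) x)
        (fun _ _ => zero_le) hx)
      simp [hxV]
    intro h0
    rw [h0] at this
    simp at this

/-- The certificate principle. -/
lemma integral_le_of_cert {f Φ : T → ℝ} (hf : Continuous f) (hΦ : Continuous Φ) {M : ℝ}
    (h : ∀ x, f x ≤ M + Φ (dbl x) - Φ x) {ν : Measure T} (hν : Inv ν) :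
    ∫ x, f x ∂ν ≤ M := by
  have := hν.1
  have hbd : ∀ g : T → ℝ, Continuous g → Integrable g ν := fun g hg =>
    hg.integrable_of_hasCompactSupport (HasCompactSupport.of_compactSpace g)
  have h1 : ∫ x, f x ∂ν ≤ ∫ x, (M + Φ (dbl x) - Φ x) ∂ν :=
    integral_mono (hbd f hf) (hbd _ ((continuous_const.add (hΦ.comp dbl_continuous)).sub hΦ)) h
  have h2 : ∫ x, Φ (dbl x) ∂ν = ∫ x, Φ x ∂ν := by
    conv_rhs => rw [← hν.2]
    rw [integral_map dbl_measurable.aemeasurable hΦ.aestronglyMeasurable]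
  have i1 : Integrable (fun x => Φ (dbl x)) ν := hbd _ (hΦ.comp dbl_continuous)
  have i2 : Integrable (fun x => M + Φ (dbl x)) ν :=
    hbd _ (continuous_const.add (hΦ.comp dbl_continuous))
  have h3 : ∫ x, (M + Φ (dbl x) - Φ x) ∂ν = M := by
    rw [integral_sub i2 (hbd _ hΦ), integral_add (integrable_const M) i1, h2]
    simp
  linarith

/-- If the certificate holds and the average of `f` over `S` is `M`, then the uniform measure on
`S` is maximizing. -/
lemma maximizing_unif {f Φ : T → ℝ} (hf : Continuous f) (hΦ : Continuous Φ) {M : ℝ}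
    (h : ∀ x, f x ≤ M + Φ (dbl x) - Φ x) (S : Finset T) (hne : S.Nonempty)
    (hmaps : ∀ x ∈ S, dbl x ∈ S)
    (hinj : ∀ x ∈ S, ∀ y ∈ S, dbl x = dbl y → x = y) (hS : ∑ x ∈ S, f x = S.card * M) :
    Maximizing f (unif S) ∧ beta f = M := by
  have hI := unif_inv S hne hmaps hinj
  have hc : (S.card : ℝ) ≠ 0 := by
    simpa using hne.ne_empty
  have hval : ∫ x, f x ∂(unif S) = M := by
    rw [unif_integral S f hf, hS, ← mul_assoc, inv_mul_cancel₀ hc, one_mul]
  have hG : IsGreatest {r : ℝ | ∃ μ : Measure T, Inv μ ∧ r = ∫ x, f x ∂μ} M := by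
    refine ⟨⟨unif S, hI, hval.symm⟩, ?_⟩
    rintro r ⟨ν, hν, rfl⟩
    exact integral_le_of_cert hf hΦ h hν
  have hb : beta f = M := hG.csSup_eq
  exact ⟨⟨hI, by rw [hval, hb]⟩, hb⟩

end Pool.Agent.Q63.Flower
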